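import Mathlib
import Pool.Agent.Y506.FF.Stm
import Pool.Agent.Y782.SA.ES

/-!
# Project FF: Efron-Stein and the Poincare inequality of the exponential law (S_VAR)
-/

set_option autoImplicit false

namespace Pool.Agent.Y758.FF

open MeasureTheory Set Filter Topology
open scoped ENNReal InnerProductSpace
open Pool.Agent.W695.KH (Eu)
open Pool.Agent.Y506.FF

/-! ### the exponential law -/

/-- the real density -/
noncomputable def ge (s : ℝ) : ℝ := (Ici (0 : ℝ)).indicator (fun s => Real.exp (-s)) s

theorem ge_nonneg (s : ℝ) : 0 ≤ ge s := indicator_nonneg (fun _ _ => (Real.exp_pos _).le) s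

theorem e0_eq (s : ℝ) : e0 s = ENNReal.ofReal (ge s) := by
  unfold e0 ge
  by_cases h : 0 ≤ s
  · rw [if_pos h, indicator_of_mem (show s ∈ Ici (0 : ℝ) from h)]
  · rw [if_neg h, indicator_of_notMem (show s ∉ Ici (0 : ℝ) from h), ENNReal.ofReal_zero]

theorem ge_int : Integrable ge := by
  unfold ge
  rw [integrable_indicator_iff measurableSet_Ici, integrableOn_Ici_iff_integrableOn_Ioi]
  exact integrableOn_exp_neg_Ioi 0

theorem ge_integral : ∫ s, ge s = 1 := by
  unfold ge
  rw [integral_indicator measurableSet_Ici, integral_Ici_eq_integral_Ioi]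
  exact integral_exp_neg_Ioi_zero

theorem e0_meas : Measurable e0 := by
  have : e0 = fun s => ENNReal.ofReal (ge s) := funext e0_eq
  rw [this]
  unfold ge
  exact ((Real.measurable_exp.comp measurable_neg).indicator measurableSet_Ici).ennreal_ofReal

/-- the exponential law -/
noncomputable def mu : Measure ℝ := volume.withDensity e0

instance : IsProbabilityMeasure mu := by
  constructor
  rw [mu, withDensity_apply _ MeasurableSet.univ, Measure.restrict_univ]
  simp only [e0_eq]
  rw [← ofReal_integral_eq_lintegral_ofReal ge_int (Eventually.of_forall ge_nonneg), ge_integral,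
    ENNReal.ofReal_one]

theorem int_mu (g : ℝ → ℝ) : ∫ s, g s ∂mu = ∫ s in Ioi (0 : ℝ), Real.exp (-s) * g s := by
  have h1 : ∀ᵐ s : ℝ, e0 s < ∞ := Eventually.of_forall fun s => by
    rw [e0_eq]
    exact ENNReal.ofReal_lt_top
  rw [mu, integral_withDensity_eq_integral_toReal_smul e0_meas h1,
    ← integral_Ici_eq_integral_Ioi, ← integral_indicator measurableSet_Ici]
  refine integral_congr_ae (Eventually.of_forall fun s => ?_)
  show (e0 s).toReal • g s = (Ici (0 : ℝ)).indicator (fun s => Real.exp (-s) * g s) s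
  rw [e0_eq, ENNReal.toReal_ofReal (ge_nonneg s), smul_eq_mul]
  unfold ge
  by_cases h : s ∈ Ici (0 : ℝ)
  · rw [indicator_of_mem h, indicator_of_mem h]
  · rw [indicator_of_notMem h, indicator_of_notMem h, zero_mul]

theorem ion {g : ℝ → ℝ} (hg : Continuous g) {C : ℝ} (hC : ∀ s, |g s| ≤ C) :
    IntegrableOn (fun s => Real.exp (-s) * g s) (Ioi 0) := by
  have h1 : IntegrableOn (fun s : ℝ => Real.exp (-s)) (Ioi 0) := integrableOn_exp_neg_Ioi 0
  exact Integrable.mul_bdd (c := C) h1 hg.aestronglyMeasurable (Eventually.of_forall fun s => by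
    rw [Real.norm_eq_abs]
    exact hC s)

/-- the Poincare inequality of the exponential law -/
theorem hardy (h h' : ℝ → ℝ) (hd : ∀ s, HasDerivAt h (h' s) s) (hc : Continuous h')
    (hb : ∀ s, |h s| ≤ 1) (B : ℝ) (hB : ∀ s, |h' s| ≤ B) :
    ∫ s, (h s - h 0) ^ 2 ∂mu ≤ 4 * ∫ s, h' s ^ 2 ∂mu := by
  have hcon : Continuous h := continuous_iff_continuousAt.2 fun s => (hd s).continuousAt
  have hB0 : 0 ≤ B := (abs_nonneg _).trans (hB 0)
  have hdif : ∀ s, |h s - h 0| ≤ 2 := fun s => by
    have h1 := abs_sub (h s) (h 0)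
    have h2 := hb s
    have h3 := hb 0
    linarith
  have c1 : Continuous fun s => (h s - h 0) ^ 2 := (hcon.sub continuous_const).pow 2
  have c2 : Continuous fun s => (h s - h 0) * h' s := (hcon.sub continuous_const).mul hc
  have c3 : Continuous fun s => h' s ^ 2 := hc.pow 2
  have i1 := ion c1 (C := 4) fun s => by
    rw [abs_pow]
    have := pow_le_pow_left₀ (abs_nonneg _) (hdif s) 2
    linarith
  have i2 := ion c2 (C := 2 * B) fun s => by
    rw [abs_mul]
    exact mul_le_mul (hdif s) (hB s) (abs_nonneg _) (by norm_num)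
  have i3 := ion c3 (C := B ^ 2) fun s => by
    rw [abs_pow]
    exact pow_le_pow_left₀ (abs_nonneg _) (hB s) 2
  have key := integral_Ioi_of_hasDerivAt_of_tendsto' (a := (0 : ℝ))
    (f := fun s => -(Real.exp (-s) * (h s - h 0) ^ 2))
    (f' := fun s => Real.exp (-s) * (h s - h 0) ^ 2 - 2 * (Real.exp (-s) * ((h s - h 0) * h' s)))
    (m := 0) (fun s _ => by
      have e1 : HasDerivAt (fun s : ℝ => Real.exp (-s)) (-Real.exp (-s)) s := by
        have := (hasDerivAt_neg s).exp
        convert this using 1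
        ring
      have e2 : HasDerivAt (fun s => (h s - h 0) ^ 2) (2 * (h s - h 0) * h' s) s := by
        have h3 : HasDerivAt (fun s => (h s - h 0) ^ 2)
            (((2 : ℕ) : ℝ) * (h s - h 0) ^ (2 - 1) * h' s) s :=
          ((hd s).sub_const (h 0)).pow 2
        refine h3.congr_deriv ?_
        norm_num
      have e3 : HasDerivAt (fun s : ℝ => -(Real.exp (-s) * (h s - h 0) ^ 2))
          (-(-Real.exp (-s) * (h s - h 0) ^ 2 + Real.exp (-s) * (2 * (h s - h 0) * h' s))) s :=
        (e1.mul e2).neg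
      refine e3.congr_deriv ?_
      ring) (i1.sub (i2.const_mul 2)) (by
      have h1 : Tendsto (fun s : ℝ => Real.exp (-s) * 4) atTop (𝓝 (0 * 4)) :=
        (Real.tendsto_exp_neg_atTop_nhds_zero).mul_const 4
      rw [zero_mul] at h1
      refine squeeze_zero_norm (fun s => ?_) h1
      rw [norm_neg, norm_mul, Real.norm_eq_abs, Real.norm_eq_abs, abs_of_pos (Real.exp_pos _),
        abs_pow]
      refine mul_le_mul_of_nonneg_left ?_ (Real.exp_pos _).le
      have := pow_le_pow_left₀ (abs_nonneg _) (hdif s) 2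
      linarith)
  rw [integral_sub i1 (i2.const_mul 2), integral_const_mul] at key
  simp only [sub_self, ne_eq, OfNat.ofNat_ne_zero, not_false_eq_true, zero_pow, mul_zero,
    neg_zero] at key
  rw [int_mu, int_mu]
  have h1 : 2 * ∫ s in Ioi (0 : ℝ), Real.exp (-s) * ((h s - h 0) * h' s) ≤
      (1 / 2) * (∫ s in Ioi (0 : ℝ), Real.exp (-s) * (h s - h 0) ^ 2) +
        2 * ∫ s in Ioi (0 : ℝ), Real.exp (-s) * h' s ^ 2 := by
    rw [← integral_const_mul, ← integral_const_mul, ← integral_const_mul,
      ← integral_add (i1.const_mul _) (i3.const_mul _)]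
    refine integral_mono (i2.const_mul 2) ((i1.const_mul _).add (i3.const_mul _)) fun s => ?_
    have h2 := Real.exp_pos (-s)
    have h3 : 0 ≤ Real.exp (-s) * (h s - h 0 - 2 * h' s) ^ 2 := by positivity
    show 2 * (Real.exp (-s) * ((h s - h 0) * h' s)) ≤
      1 / 2 * (Real.exp (-s) * (h s - h 0) ^ 2) + 2 * (Real.exp (-s) * h' s ^ 2)
    nlinarith
  linarith

/-! ### the product -/

section prod

variable {ι : Type} [Fintype ι]

theorem pi_mu : (Measure.pi fun _ : ι => mu) =
    volume.withDensity (fun x : ι → ℝ => ∏ i, e0 (x i)) := by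
  classical
  refine Measure.pi_eq fun s hs => ?_
  have hS : MeasurableSet (Set.pi Set.univ s) := MeasurableSet.univ_pi hs
  rw [withDensity_apply _ hS, ← lintegral_indicator hS]
  set g : (i : ι) → ℝ → ℝ := fun i => (s i).indicator ge with hg
  have hgi : ∀ i, Integrable (g i) := fun i => ge_int.indicator (hs i)
  have hg0 : ∀ i z, 0 ≤ g i z := by
    intro i z
    simp only [hg]
    exact Set.indicator_nonneg (fun z _ => ge_nonneg z) z
  have h1 : ∀ x : ι → ℝ, (Set.pi Set.univ s).indicator (fun x : ι → ℝ => ∏ i, e0 (x i)) x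
      = ENNReal.ofReal (∏ i, g i (x i)) := by
    intro x
    by_cases hx : x ∈ Set.pi Set.univ s
    · rw [Set.indicator_of_mem hx, ENNReal.ofReal_prod_of_nonneg fun i _ => hg0 i _]
      refine Finset.prod_congr rfl fun i _ => ?_
      simp only [hg]
      rw [Set.indicator_of_mem (hx i (Set.mem_univ i)), e0_eq]
    · rw [Set.indicator_of_notMem hx]
      have : ∃ i, x i ∉ s i := by
        by_contra hc
        push Not at hc
        exact hx fun i _ => hc i
      obtain ⟨i, hi⟩ := this
      rw [Finset.prod_eq_zero (Finset.mem_univ i) (by simp only [hg]; rw [Set.indicator_of_notMem hi]),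
        ENNReal.ofReal_zero]
  simp_rw [h1]
  have hint : Integrable (fun x : ι → ℝ => ∏ i, g i (x i)) := by
    have h2 := Integrable.fintype_prod_dep (f := g) (μ := fun _ => volume) hgi
    rw [volume_pi]
    exact h2
  rw [← ofReal_integral_eq_lintegral_ofReal hint
    (Filter.Eventually.of_forall fun x => Finset.prod_nonneg fun i _ => hg0 i (x i)),
    integral_fintype_prod_volume_eq_prod, ENNReal.ofReal_prod_of_nonneg
      (fun i _ => integral_nonneg (hg0 i))]
  refine Finset.prod_congr rfl fun i _ => ?_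
  rw [ofReal_integral_eq_lintegral_ofReal (hgi i) (Filter.Eventually.of_forall (hg0 i)), mu,
    withDensity_apply _ (hs i), ← lintegral_indicator (hs i)]
  refine lintegral_congr fun z => ?_
  simp only [hg]
  by_cases hz : z ∈ s i
  · rw [Set.indicator_of_mem hz, Set.indicator_of_mem hz, e0_eq]
  · rw [Set.indicator_of_notMem hz, Set.indicator_of_notMem hz, ENNReal.ofReal_zero]

/-- integrals over `Eu ι` with the density `rho` -/
theorem lint_rho (g : (ι → ℝ) → ℝ≥0∞) (hg : Measurable g) :
    ∫⁻ s : Eu ι, g s.ofLp * rho s = ∫⁻ V, g V ∂(Measure.pi fun _ : ι => mu) := by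
  have hr : Measurable fun x : ι → ℝ => ∏ i, e0 (x i) :=
    Finset.measurable_fun_prod _ fun i _ => e0_meas.comp (measurable_pi_apply i)
  rw [pi_mu, lintegral_withDensity_eq_lintegral_mul _ hr hg]
  have h := (PiLp.volume_preserving_ofLp ι).lintegral_comp (hr.mul hg)
  rw [← h]
  refine lintegral_congr fun s => ?_
  show g s.ofLp * rho s = (∏ i, e0 (s.ofLp i)) * g s.ofLp
  rw [mul_comm]
  rfl

/-- Fubini for one coordinate -/
theorem marg [DecidableEq ι] (i : ι) (f : (ι → ℝ) → ℝ≥0∞) (hf : Measurable f) :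
    ∫⁻ V, f V ∂(Measure.pi fun _ : ι => mu) =
      ∫⁻ V, (∫⁻ s, f (Function.update V i s) ∂mu) ∂(Measure.pi fun _ : ι => mu) := by
  have hg : Measurable fun V : ι → ℝ => ∫⁻ s, f (Function.update V i s) ∂mu := by
    have h1 : Measurable fun p : (ι → ℝ) × ℝ => f (Function.update p.1 i p.2) :=
      hf.comp measurable_update'
    exact h1.lintegral_prod_right'
  rw [lintegral_eq_lmarginal_univ (0 : ι → ℝ), lintegral_eq_lmarginal_univ (0 : ι → ℝ),
    lmarginal_erase' _ hf (Finset.mem_univ i), lmarginal_erase' _ hg (Finset.mem_univ i)]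
  congr 2
  funext V
  have h1 : ∀ x, ∫⁻ s, f (Function.update (Function.update V i x) i s) ∂mu =
      ∫⁻ s, f (Function.update V i s) ∂mu := by
    intro x
    refine lintegral_congr fun s => ?_
    rw [Function.update_idem]
  simp only [h1]
  rw [lintegral_const, measure_univ, mul_one]

/-- the partial derivatives -/
theorem sum_sq_le [DecidableEq ι] (φ : Eu ι →L[ℝ] ℝ) :
    ∑ i, φ (EuclideanSpace.single i 1) ^ 2 ≤ ‖φ‖ ^ 2 := by
  set y := (InnerProductSpace.toDual ℝ (Eu ι)).symm φ with hy
  have h1 : ∀ i, φ (EuclideanSpace.single i 1) = y i := by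
    intro i
    have := InnerProductSpace.toDual_symm_apply (𝕜 := ℝ) (x := EuclideanSpace.single i (1 : ℝ))
      (y := φ)
    rw [← this, ← hy, EuclideanSpace.inner_single_right]
    simp
  have h2 : ‖y‖ = ‖φ‖ := by rw [hy]; exact LinearIsometryEquiv.norm_map _ _
  rw [← h2, EuclideanSpace.norm_sq_eq]
  refine le_of_eq (Finset.sum_congr rfl fun i _ => ?_)
  rw [h1, Real.norm_eq_abs, sq_abs]

end prod

theorem var : S_VAR := by
  classical
  intro ι _ f l hf hb hl hfl
  set P : Measure (ι → ℝ) := Measure.pi fun _ : ι => mu with hP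
  have hcont : Continuous f := hf.continuous
  have hlp : Continuous fun V : ι → ℝ => (WithLp.toLp 2 V : Eu ι) :=
    PiLp.continuous_toLp 2 _
  have hF : Continuous fun V : ι → ℝ => f (WithLp.toLp 2 V) := hcont.comp hlp
  -- the partial derivatives
  have hdf : Continuous fun V : ι → ℝ => fderiv ℝ f (WithLp.toLp 2 V) :=
    (hf.continuous_fderiv (by norm_num)).comp hlp
  have hdi : ∀ i, Continuous fun V : ι → ℝ =>
      fderiv ℝ f (WithLp.toLp 2 V) (EuclideanSpace.single i 1) := fun i =>
    hdf.clm_apply continuous_const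
  have hder : ∀ (V : ι → ℝ) (i : ι) (s : ℝ), HasDerivAt
      (fun s => f (WithLp.toLp 2 (Function.update V i s)))
      (fderiv ℝ f (WithLp.toLp 2 (Function.update V i s)) (EuclideanSpace.single i 1)) s := by
    intro V i s
    have h1 : HasDerivAt (fun s : ℝ => Function.update V i s) (Pi.single i (1 : ℝ)) s :=
      hasDerivAt_update V i s
    have h2 : HasDerivAt (fun s : ℝ => (WithLp.toLp 2 (Function.update V i s) : Eu ι))
        (EuclideanSpace.single i (1 : ℝ)) s := by
      have h3 := ((PiLp.continuousLinearEquiv 2 ℝ (fun _ : ι => ℝ)).symm :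
        (ι → ℝ) →L[ℝ] Eu ι).hasFDerivAt.comp_hasDerivAt s h1
      exact h3
    exact ((hf.differentiable (by norm_num)) _).hasFDerivAt.comp_hasDerivAt s h2
  have hup : ∀ i : ι, Continuous fun p : (ι → ℝ) × ℝ => Function.update p.1 i p.2 := fun i =>
    continuous_fst.update i continuous_snd
  -- the mean
  obtain ⟨m, hm⟩ : ∃ m : ℝ, m = ∫ V, f (WithLp.toLp 2 V) ∂P := ⟨_, rfl⟩
  have hmc : ((m : ℝ) : ℂ) = ∫ V, ((f (WithLp.toLp 2 V) : ℝ) : ℂ) ∂P := by
    rw [hm]
    exact integral_ofReal.symm
  refine ⟨m, ?_, ?_⟩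
  · rw [hm, ← Real.norm_eq_abs]
    refine (norm_integral_le_of_norm_le_const (C := 1) (Eventually.of_forall fun V => ?_)).trans ?_
    · rw [Real.norm_eq_abs]
      exact hb _
    · simp
  have hmeas : Measurable fun V : ι → ℝ => ENNReal.ofReal ((f (WithLp.toLp 2 V) - m) ^ 2) :=
    ((hF.sub continuous_const).pow 2).measurable.ennreal_ofReal
  have e1 := lint_rho (fun V : ι → ℝ => ENNReal.ofReal ((f (WithLp.toLp 2 V) - m) ^ 2)) hmeas
  have e2 : ∫⁻ s : Eu ι, ENNReal.ofReal ((f s - m) ^ 2) * rho s =
      ∫⁻ V, ENNReal.ofReal ((f (WithLp.toLp 2 V) - m) ^ 2) ∂P := by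
    rw [hP, ← e1]
  rw [e2]
  -- Efron-Stein
  have hes := Pool.Agent.Y782.SA.ES.es ι mu (fun V => ((f (WithLp.toLp 2 V) : ℝ) : ℂ))
    (Complex.continuous_ofReal.comp hF) ⟨1, fun V => by
      rw [Complex.norm_real, Real.norm_eq_abs]
      exact hb _⟩
  rw [← hP, ← hmc] at hes
  have hn : ∀ a b : ℝ, ‖(a : ℂ) - (b : ℂ)‖ ^ 2 = (a - b) ^ 2 := by
    intro a b
    rw [← Complex.ofReal_sub, Complex.norm_real, Real.norm_eq_abs, sq_abs]
  simp only [hn] at hes
  have hbd : ∀ (a b : ℝ), |a| ≤ 1 → |b| ≤ 1 → ‖(a - b) ^ 2‖ ≤ 4 := by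
    intro a b ha hb
    rw [norm_pow, Real.norm_eq_abs]
    have h1 : |a - b| ≤ 2 := (abs_sub a b).trans (by linarith)
    have := pow_le_pow_left₀ (abs_nonneg _) h1 2
    linarith
  have hm1 : |m| ≤ 1 := by
    rw [hm, ← Real.norm_eq_abs]
    refine (norm_integral_le_of_norm_le_const (C := 1) (Eventually.of_forall fun V => ?_)).trans ?_
    · rw [Real.norm_eq_abs]
      exact hb _
    · simp
  have j1 : Integrable (fun V => (f (WithLp.toLp 2 V) - m) ^ 2) P :=
    Integrable.of_bound ((hF.sub continuous_const).pow 2).aestronglyMeasurable 4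
      (Eventually.of_forall fun V => hbd _ _ (hb _) hm1)
  have hcu : ∀ i, Continuous fun V : ι → ℝ => f (WithLp.toLp 2 (Function.update V i 0)) := fun i =>
    hF.comp (continuous_id.update i continuous_const)
  have j2 : ∀ i, Integrable (fun V =>
      (f (WithLp.toLp 2 V) - f (WithLp.toLp 2 (Function.update V i 0))) ^ 2) P := fun i =>
    Integrable.of_bound ((hF.sub (hcu i)).pow 2).aestronglyMeasurable 4
      (Eventually.of_forall fun V => hbd _ _ (hb _) (hb _))
  rw [← ofReal_integral_eq_lintegral_ofReal j1 (Eventually.of_forall fun V => sq_nonneg _)]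
  refine (ENNReal.ofReal_le_ofReal hes).trans ?_
  rw [ENNReal.ofReal_sum_of_nonneg fun i _ => integral_nonneg fun V => sq_nonneg _]
  -- one coordinate
  have hone : ∀ i, ENNReal.ofReal (∫ V,
      (f (WithLp.toLp 2 V) - f (WithLp.toLp 2 (Function.update V i 0))) ^ 2 ∂P) ≤
      ∫⁻ V, ENNReal.ofReal (4 *
        fderiv ℝ f (WithLp.toLp 2 V) (EuclideanSpace.single i 1) ^ 2) ∂P := by
    intro i
    rw [ofReal_integral_eq_lintegral_ofReal (j2 i) (Eventually.of_forall fun V => sq_nonneg _)]
    rw [hP, marg i (fun V => ENNReal.ofReal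
        ((f (WithLp.toLp 2 V) - f (WithLp.toLp 2 (Function.update V i 0))) ^ 2))
        ((hF.sub (hcu i)).pow 2).measurable.ennreal_ofReal,
      marg i (fun V => ENNReal.ofReal (4 *
        fderiv ℝ f (WithLp.toLp 2 V) (EuclideanSpace.single i 1) ^ 2))
        (((hdi i).pow 2).const_mul 4).measurable.ennreal_ofReal]
    refine lintegral_mono fun V => ?_
    simp only [Function.update_idem]
    have c0 : Continuous fun s : ℝ => Function.update V i s :=
      (hup i).comp (Continuous.prodMk continuous_const continuous_id)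
    have hcs : Continuous fun s : ℝ => f (WithLp.toLp 2 (Function.update V i s)) := hF.comp c0
    have hcd : Continuous fun s : ℝ =>
        fderiv ℝ f (WithLp.toLp 2 (Function.update V i s)) (EuclideanSpace.single i 1) :=
      (hdi i).comp c0
    have hdb : ∀ s : ℝ,
        |fderiv ℝ f (WithLp.toLp 2 (Function.update V i s)) (EuclideanSpace.single i 1)| ≤ l := by
      intro s
      have h1 := ContinuousLinearMap.le_opNorm
        (fderiv ℝ f (WithLp.toLp 2 (Function.update V i s))) (EuclideanSpace.single i (1 : ℝ))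
      rw [EuclideanSpace.norm_single, norm_one, mul_one, Real.norm_eq_abs] at h1
      exact h1.trans (hfl _)
    have hh := hardy (fun s => f (WithLp.toLp 2 (Function.update V i s)))
      (fun s => fderiv ℝ f (WithLp.toLp 2 (Function.update V i s)) (EuclideanSpace.single i 1))
      (hder V i) hcd (fun s => hb _) l hdb
    rw [← integral_const_mul] at hh
    rw [← ofReal_integral_eq_lintegral_ofReal, ← ofReal_integral_eq_lintegral_ofReal]
    · exact ENNReal.ofReal_le_ofReal hh
    · refine Integrable.of_bound ((hcd.pow 2).const_mul 4).aestronglyMeasurable (4 * l ^ 2)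
        (Eventually.of_forall fun s => ?_)
      rw [norm_mul, norm_pow, Real.norm_eq_abs, Real.norm_eq_abs,
        abs_of_pos (by norm_num : (0 : ℝ) < 4)]
      exact mul_le_mul_of_nonneg_left (pow_le_pow_left₀ (abs_nonneg _) (hdb s) 2) (by norm_num)
    · exact Eventually.of_forall fun s => by positivity
    · exact Integrable.of_bound ((hcs.sub continuous_const).pow 2).aestronglyMeasurable 4
        (Eventually.of_forall fun s => hbd _ _ (hb _) (hb _))
    · exact Eventually.of_forall fun s => sq_nonneg _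
  refine (Finset.sum_le_sum fun i _ => hone i).trans ?_
  have hmi : ∀ i : ι, Measurable fun V : ι → ℝ => ENNReal.ofReal (4 *
        fderiv ℝ f (WithLp.toLp 2 V) (EuclideanSpace.single i 1) ^ 2) := fun i =>
    (((hdi i).pow 2).const_mul 4).measurable.ennreal_ofReal
  rw [← lintegral_finsetSum _ fun i _ => hmi i]
  calc ∫⁻ V, ∑ i, ENNReal.ofReal (4 *
        fderiv ℝ f (WithLp.toLp 2 V) (EuclideanSpace.single i 1) ^ 2) ∂P
      ≤ ∫⁻ _V, ENNReal.ofReal (4 * l ^ 2) ∂P := by
        refine lintegral_mono fun V => ?_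
        rw [← ENNReal.ofReal_sum_of_nonneg fun i _ => by positivity]
        apply ENNReal.ofReal_le_ofReal
        rw [← Finset.mul_sum]
        refine mul_le_mul_of_nonneg_left ?_ (by norm_num)
        exact (sum_sq_le _).trans (pow_le_pow_left₀ (norm_nonneg _) (hfl _) 2)
    _ = ENNReal.ofReal (4 * l ^ 2) := by
        rw [lintegral_const, measure_univ, mul_one]

end Pool.Agent.Y758.FF
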